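import Pool.Agent.Helper12.RD.St.W1
import Pool.Agent.Helper12.RD.St.W2
import Pool.Agent.Helper12.RD.St.B1
import Pool.Agent.Helper12.RD.St.L1
import Pool.Agent.Helper12.RD.St.C1
import Pool.Agent.Helper12.RD.St.S1
import Pool.Agent.Helper12.RD.St.E5
import Pool.Agent.Helper12.RD.St.K1
import Pool.Agent.Helper12.RD.St.K2
import Pool.Agent.Helper12.RD.St.K3
import Pool.Agent.Helper12.RD.St.K4
import Pool.Agent.Helper12.RD.St.K5

set_option autoImplicit false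

open MeasureTheory Real Filter Topology Set
open scoped ContDiff

noncomputable section

namespace Pool.Agent.Helper12.RD

theorem La_lam_le {Φ : ℝ × ℝ → ℂ} {n x : ℝ} {z : ℝ × ℝ} (hn : 0 < n) (hx : 0 ≤ x)
    (h : ‖Φ z‖ ≤ n * Real.exp x) : La (lam n Φ z) ≤ x := by
  rcases le_or_gt (lam n Φ z) 0 with h1 | h1
  · rw [La_left h1]; exact hx
  · refine (La_le h1.le).trans ?_
    unfold lam at h1 ⊢
    have hpos : 0 < ‖Φ z‖ / (2 * n) := by
      by_contra hne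
      have h2 : 0 ≤ ‖Φ z‖ / (2 * n) := by positivity
      have h3 : ‖Φ z‖ / (2 * n) = 0 := le_antisymm (not_lt.1 hne) h2
      rw [h3, Real.log_zero] at h1
      exact lt_irrefl _ h1
    rw [Real.log_le_iff_le_exp hpos, div_le_iff₀ (by positivity)]
    have := Real.exp_pos x
    nlinarith

/-- points near which the pairing vanishes -/
def Reg (Φ : ℕ → ℝ × ℝ → ℂ) (z : ℝ × ℝ) : Prop :=
  ∃ U : Set (ℝ × ℝ), IsOpen U ∧ z ∈ U ∧ ∀ φ : ℝ × ℝ → ℝ, ContDiff ℝ ∞ φ →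
    HasCompactSupport φ → tsupport φ ⊆ U → Bp 1 (Φ 0) φ = 0

theorem Reg.hol {Φ : ℕ → ℝ × ℝ → ℂ} (h : Fam Φ) {z : ℝ × ℝ} (hz : Reg Φ z) (k : ℕ) :
    Hol (2 ^ k) (Φ k) z := by
  obtain ⟨U, hU, hzU, hφ⟩ := hz
  refine weyl (h.cont k) (by positivity) hU (fun φ h1 h2 h3 => ?_) hzU
  rw [h.pair k φ (h1.of_le (by simp)) h2]
  exact hφ φ h1 h2 h3

theorem reg_open (Φ : ℕ → ℝ × ℝ → ℂ) : IsOpen {z | Reg Φ z} := by
  rw [isOpen_iff_forall_mem_open]
  rintro z ⟨U, hU, hzU, hφ⟩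
  exact ⟨U, fun y hy => ⟨U, hU, hy, hφ⟩, hU, hzU⟩

/-- distance sets -/
theorem near_compact {K : Set ℝ} (hK : IsCompact K) (hne : K.Nonempty) {X A : ℝ} (hX : 0 < X) :
    IsCompact {t : ℝ | X * Metric.infDist t K ≤ A} := by
  rw [Metric.isCompact_iff_isClosed_bounded]
  refine ⟨isClosed_le (continuous_const.mul (Metric.continuous_infDist_pt K)) continuous_const,
    ?_⟩
  obtain ⟨R, hR⟩ := hK.isBounded.subset_closedBall (0 : ℝ)
  refine (Metric.isBounded_closedBall (x := (0 : ℝ)) (r := R + A / X)).subset ?_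
  intro t ht
  obtain ⟨y, hy, hty⟩ := hK.exists_infDist_eq_dist hne t
  have h1 : X * dist t y ≤ A := by rw [← hty]; exact ht
  have h2 : dist t y ≤ A / X := by rw [le_div_iff₀ hX]; linarith
  have h3 := hR hy
  rw [Metric.mem_closedBall] at h3 ⊢
  have h4 := dist_triangle t y 0
  linarith

theorem exp_bound {C n : ℝ} (hC : 0 ≤ C) (hn : 0 < n) (k : ℕ) :
    C * 2 ^ k ≤ n * Real.exp (Real.log (C / n + 1) + k) := by
  have h1 : 0 < C / n + 1 := by positivity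
  rw [Real.exp_add, Real.exp_log h1]
  have h2 : (2 : ℝ) ^ k ≤ Real.exp k := by
    have h3 : (2 : ℝ) ≤ Real.exp 1 := by
      have := Real.add_one_le_exp (1 : ℝ)
      linarith
    calc (2 : ℝ) ^ k ≤ (Real.exp 1) ^ k := pow_le_pow_left₀ (by norm_num) h3 k
      _ = Real.exp k := by rw [← Real.exp_nat_mul, mul_one]
  have h4 : 0 < Real.exp (k : ℝ) := Real.exp_pos _
  have h5 : n * ((C / n + 1) * Real.exp k) = (C + n) * Real.exp k := by
    field_simp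
  rw [h5]
  have h6 : 0 < (2 : ℝ) ^ k := by positivity
  nlinarith

/-- the energy of the scale `2 ^ k` -/
theorem energy_k {Φ : ℕ → ℝ × ℝ → ℂ} (h : Fam Φ) {S : Set (ℝ × ℝ)}
    (hS : ∀ z, z ∉ S → ∀ k, Hol (2 ^ k) (Φ k) z) {a b c₁ c₂ m₁ m₂ r n : ℝ}
    (hP : Port Φ S a b c₁ c₂ m₁ m₂ r n) {K : Set ℝ} (hK : IsCompact K) (hne : K.Nonempty)
    (hKP : ∀ t ∈ K, t ∈ closure {t : ℝ | t ∈ Ioo a b ∧ ∃ p ∈ Ioo m₁ m₂, (t, p) ∈ S})
    {μ : ℝ} (hμ : ∀ t ∈ K, ∀ t', |t' - t| ≤ μ → t' ∈ Ioo a b)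
    {κ : ℝ} (hκ : 0 ≤ κ) {k : ℕ} (hk : (r + 3) / 2 ^ k ≤ μ)
    (hb : ∀ z : ℝ × ℝ, z.1 ∈ Ioo a b → z.2 ∈ Icc (c₁ - r) (c₂ + r) →
      ‖Φ k z‖ ≤ n * Real.exp κ)
    {ψ : ℝ → ℝ} {C : ℝ} (hψ : ContDiff ℝ ∞ ψ) (hψ0 : ∀ t, 0 ≤ ψ t) (hψ1 : ∀ t, ψ t ≤ 1)
    (hψ3 : ∀ t, 3 ≤ 2 ^ k * Metric.infDist t K → ψ t = 0)
    (hψd : ∀ t, |deriv (deriv ψ) t| ≤ C * (2 ^ k) ^ 2)
    (hψz : ∀ t, ¬ (1 ≤ 2 ^ k * Metric.infDist t K ∧ 2 ^ k * Metric.infDist t K ≤ 3) →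
      deriv (deriv ψ) t = 0) :
    HasCompactSupport ψ ∧ tsupport ψ ⊆ Ioo a b ∧
    ∫ z in (univ : Set ℝ) ×ˢ Icc m₁ m₂, En (2 ^ k) n (Φ k) z * ψ z.1 ≤
      κ * (4 / r ^ 2 * bs K (2 ^ k) + (c₂ - c₁) ^ 2 / r * C * ee K (2 ^ k)) := by
  have hX : (0 : ℝ) < 2 ^ k := by positivity
  have hr := hP.hr
  have hn : 0 < n := lt_of_lt_of_le one_pos hP.hn
  have hm := hP.hm
  have hcc : c₁ + r ≤ c₂ - r := by linarith [hP.h1, hP.h2]
  have hrμ : r / 2 ^ k ≤ μ := by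
    refine le_trans ?_ hk
    gcongr
    linarith
  have h3μ : 3 / 2 ^ k ≤ μ := by
    refine le_trans ?_ hk
    gcongr
    linarith
  -- points near K are inside
  have hin : ∀ t, 2 ^ k * Metric.infDist t K ≤ 3 → t ∈ Ioo a b := by
    intro t ht
    obtain ⟨y, hy, hty⟩ := hK.exists_infDist_eq_dist hne t
    refine hμ y hy t ?_
    rw [hty, Real.dist_eq] at ht
    refine le_trans ?_ h3μ
    rw [le_div_iff₀ hX]
    linarith
  have hsub : tsupport ψ ⊆ {t : ℝ | 2 ^ k * Metric.infDist t K ≤ 3} := by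
    refine closure_minimal (fun t ht => ?_) (near_compact hK hne hX).isClosed
    by_contra hne'
    exact ht (hψ3 t (not_le.1 hne').le)
  have hcomp : HasCompactSupport ψ :=
    IsCompact.of_isClosed_subset (near_compact hK hne hX) (isClosed_tsupport ψ) hsub
  have hts : tsupport ψ ⊆ Ioo a b := fun t ht => hin t (hsub ht)
  refine ⟨hcomp, hts, ?_⟩
  have hol : ∀ z : ℝ × ℝ, z.1 ∈ Ioo a b → z.2 ∈ Icc (c₁ - r) (c₂ + r) → n < ‖Φ k z‖ →
      Hol (2 ^ k) (Φ k) z := by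
    intro z h1 h2 h3
    refine hS z (fun hz => ?_) k
    exact absurd (hP.onS k z h1 h2 hz) (not_le.2 h3)
  -- layers
  have hlay : ∀ c, (c = c₁ ∨ c = c₂) → ∀ t, 2 ^ k * Metric.infDist t K ≤ 3 →
      ‖Φ k (t, c)‖ ≤ n * Real.exp (2 * κ * (2 ^ k * Metric.infDist t K) / r) := by
    intro c hc t ht
    have hcm : ∀ x, |x - c| ≤ r → x ∈ Icc (c₁ - r) (c₂ + r) := by
      intro x hx
      rw [abs_le] at hx
      rcases hc with rfl | rfl
      · exact ⟨by linarith, by linarith⟩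
      · exact ⟨by linarith, by linarith⟩
    have hcm' : ∀ x, |x - c| ≤ r → x ∈ Icc (c₁ - r) (c₁ + r) ∨ x ∈ Icc (c₂ - r) (c₂ + r) := by
      intro x hx
      rw [abs_le] at hx
      rcases hc with rfl | rfl
      · left; exact ⟨by linarith, by linarith⟩
      · right; exact ⟨by linarith, by linarith⟩
    obtain ⟨y, hy, hty⟩ := hK.exists_infDist_eq_dist hne t
    rw [hty, Real.dist_eq]
    have hyab : y ∈ Ioo a b := by
      refine hμ y hy y ?_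
      rw [sub_self, abs_zero]
      exact le_trans (by positivity) h3μ
    rcases le_or_gt (2 ^ k * |t - y|) r with h1 | h1
    · have hbox : ∀ z : ℝ × ℝ, 2 ^ k * |z.1 - y| ≤ r → z.1 ∈ Ioo a b := by
        intro z hz
        refine hμ y hy z.1 (le_trans ?_ hrμ)
        rw [le_div_iff₀ hX]
        linarith
      refine layer (h.cont k) hX hn hκ hr h1 ?_ ?_ ?_
      · intro z h2 h3 h4
        exact hol z (hbox z h2) (hcm _ h3) h4
      · intro z h2 h3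
        exact hb z (hbox z h2) (hcm _ h3)
      · intro p hp
        exact hP.layer k (y, p) hyab (hKP y hy) (hcm' p hp)
    · refine (hb (t, c) (hin t ht) (hcm c (by simp [hr.le]))).trans ?_
      refine mul_le_mul_of_nonneg_left (Real.exp_le_exp.2 ?_) hn.le
      rw [le_div_iff₀ hr]
      nlinarith
  have hM : ∀ z : ℝ × ℝ, z.1 ∈ tsupport ψ → z.2 ∈ Icc c₁ c₂ → La (lam n (Φ k) z) ≤ κ := by
    intro z h1 h2
    exact La_lam_le hn hκ (hb z (hts h1) ⟨by linarith [h2.1], by linarith [h2.2]⟩)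
  have key := energy (h.cont k) hX hn hm hr hP.h1 hP.h2 hol (hψ.of_le ENat.LEInfty.out) hψ0 hcomp hts
    hκ hM
  have l1 := layer_int (h.cont k) hX hn hκ hr hK hne hψ.continuous hψ0 hψ1 hψ3
    (hlay c₁ (Or.inl rfl))
  have l2 := layer_int (h.cont k) hX hn hκ hr hK hne hψ.continuous hψ0 hψ1 hψ3
    (hlay c₂ (Or.inr rfl))
  have hcd : Continuous (deriv (deriv ψ)) := by
    have h1 : ContDiff ℝ 2 ψ := hψ.of_le ENat.LEInfty.out
    have h2 : ContDiff ℝ 1 (deriv ψ) := by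
      have : (2 : WithTop ℕ∞) = 1 + 1 := by norm_num
      rw [this, contDiff_succ_iff_deriv] at h1
      exact h1.2.2
    exact h2.continuous_deriv (by norm_num)
  have l3 := psi_int hK hne hX hcd hψd hψz
  refine key.trans ?_
  have hX2 : (0 : ℝ) < (2 ^ k) ^ 2 := by positivity
  have l4 : κ * ((2 ^ k) ^ 2 : ℝ)⁻¹ * ∫ t, |deriv (deriv ψ) t| ≤ κ * (C * ee K (2 ^ k)) := by
    rw [mul_assoc]
    refine mul_le_mul_of_nonneg_left ?_ hκ
    rw [inv_mul_le_iff₀ hX2]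
    linarith
  have l5 : (c₂ - c₁) ^ 2 / r * (κ * ((2 ^ k) ^ 2 : ℝ)⁻¹ * ∫ t, |deriv (deriv ψ) t|) ≤
      (c₂ - c₁) ^ 2 / r * (κ * (C * ee K (2 ^ k))) :=
    mul_le_mul_of_nonneg_left l4 (by positivity)
  have l6 : r⁻¹ * ((∫ t, La (lam n (Φ k) (t, c₁)) * ψ t) + ∫ t, La (lam n (Φ k) (t, c₂)) * ψ t) ≤
      r⁻¹ * (2 * κ / r * bs K (2 ^ k) + 2 * κ / r * bs K (2 ^ k)) :=
    mul_le_mul_of_nonneg_left (add_le_add l1 l2) (by positivity)
  refine (add_le_add l6 l5).trans (le_of_eq ?_)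
  field_simp
  ring

/-- the pairing vanishes on functions supported in the middle part of the box -/
theorem core {Φ : ℕ → ℝ × ℝ → ℂ} (h : Fam Φ) {S : Set (ℝ × ℝ)}
    (hS : ∀ z, z ∉ S → ∀ k, Hol (2 ^ k) (Φ k) z) {a b c₁ c₂ m₁ m₂ r n : ℝ}
    (hP : Port Φ S a b c₁ c₂ m₁ m₂ r n) {φ : ℝ × ℝ → ℝ} (hφ : ContDiff ℝ 1 φ)
    (hφc : HasCompactSupport φ) (hφs : tsupport φ ⊆ Ioo a b ×ˢ Ioo m₁ m₂) :
    Bp 1 (Φ 0) φ = 0 := by
  have hr := hP.hr
  have hn : 0 < n := lt_of_lt_of_le one_pos hP.hn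
  have hm := hP.hm
  have hcc : c₁ + r ≤ c₂ - r := by linarith [hP.h1, hP.h2]
  by_cases hts : (tsupport φ).Nonempty
  swap
  · rw [not_nonempty_iff_eq_empty] at hts
    refine bp_zero one_pos hφ hφc fun z hz => ?_
    rw [hts] at hz
    exact absurd hz (notMem_empty z)
  obtain ⟨zm, hzm, hmin⟩ := hφc.isCompact.exists_isMinOn hts continuous_fst.continuousOn
  obtain ⟨zM, hzM, hmax⟩ := hφc.isCompact.exists_isMaxOn hts continuous_fst.continuousOn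
  set α : ℝ := zm.1 with hα
  set β : ℝ := zM.1 with hβ
  have hαa : a < α := (hφs hzm).1.1
  have hβb : β < b := (hφs hzM).1.2
  have hαβ : ∀ z ∈ tsupport φ, z.1 ∈ Icc α β := fun z hz => ⟨hmin hz, hmax hz⟩
  set P : Set ℝ := {t : ℝ | t ∈ Ioo a b ∧ ∃ p ∈ Ioo m₁ m₂, (t, p) ∈ S} with hPdef
  set K : Set ℝ := closure P ∩ Icc α β with hKdef
  have hKc : IsCompact K := isCompact_Icc.inter_left isClosed_closure
  have hSK : ∀ z ∈ tsupport φ, z ∈ S → z.1 ∈ K := by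
    intro z hz hzS
    refine ⟨subset_closure ⟨(hφs hz).1, z.2, (hφs hz).2, hzS⟩, hαβ z hz⟩
  by_cases hne : K.Nonempty
  swap
  · rw [not_nonempty_iff_eq_empty] at hne
    refine bp_zero one_pos hφ hφc fun z hz => ?_
    have := hS z (fun hzS => by
      have h1 := hSK z hz hzS
      rw [hne] at h1
      exact h1) 0
    rwa [pow_zero] at this
  -- margins
  set μ : ℝ := min (α - a) (b - β) / 2 with hμdef
  have hμ0 : 0 < μ := by
    rw [hμdef]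
    have : 0 < min (α - a) (b - β) := lt_min (by linarith) (by linarith)
    linarith
  have hμ : ∀ t ∈ K, ∀ t', |t' - t| ≤ μ → t' ∈ Ioo a b := by
    intro t ht t' h1
    have h2 : μ < α - a := by
      have := min_le_left (α - a) (b - β)
      rw [hμdef] at hμ0 ⊢
      linarith
    have h3 : μ < b - β := by
      have := min_le_right (α - a) (b - β)
      rw [hμdef] at hμ0 ⊢
      linarith
    rw [abs_le] at h1
    exact ⟨by linarith [ht.2.1], by linarith [ht.2.2]⟩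
  -- bounds
  set R0 : ℝ := |a| + |b| + |c₁| + |c₂| + r with hR0
  have hbox : ∀ z : ℝ × ℝ, z.1 ∈ Ioo a b → z.2 ∈ Icc (c₁ - r) (c₂ + r) → ‖z‖ ≤ R0 := by
    intro z h1 h2
    rw [Prod.norm_def, Real.norm_eq_abs, Real.norm_eq_abs, hR0]
    have e1 := abs_nonneg a
    have e2 := abs_nonneg b
    have e3 := abs_nonneg c₁
    have e4 := abs_nonneg c₂
    refine max_le ?_ ?_
    · rw [abs_le]
      exact ⟨by linarith [h1.1, neg_abs_le a], by linarith [h1.2, le_abs_self b]⟩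
    · rw [abs_le]
      exact ⟨by linarith [h2.1, neg_abs_le c₁], by linarith [h2.2, le_abs_self c₂]⟩
  obtain ⟨C0, hC0⟩ := h.bd R0
  set C1 : ℝ := max C0 0 with hC1
  have hC10 : 0 ≤ C1 := le_max_right _ _
  set L : ℝ := Real.log (C1 / n + 1) with hL
  have hL0 : 0 ≤ L := Real.log_nonneg (by
    have : 0 ≤ C1 / n := by positivity
    linarith)
  have hb : ∀ k : ℕ, ∀ z : ℝ × ℝ, z.1 ∈ Ioo a b → z.2 ∈ Icc (c₁ - r) (c₂ + r) →
      ‖Φ k z‖ ≤ n * Real.exp (L + k) := by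
    intro k z h1 h2
    refine (hC0 k z (hbox z h1 h2)).trans (le_trans ?_ (exp_bound hC10 hn k))
    exact mul_le_mul_of_nonneg_right (le_max_left _ _) (by positivity)
  obtain ⟨C, hC, hcut⟩ := cutoff
  obtain ⟨Mφ, hMφ⟩ := hφc.exists_bound_of_continuous hφ.continuous
  have hMφ' : ∀ z, |φ z| ≤ Mφ := fun z => by rw [← Real.norm_eq_abs]; exact hMφ z
  have hMφ0 : 0 ≤ Mφ := (abs_nonneg _).trans (hMφ' 0)
  have hφ2 : ∀ z, φ z ≠ 0 → z.2 ∈ Icc m₁ m₂ := by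
    intro z hz
    have h1 := (hφs (subset_closure hz)).2
    exact ⟨h1.1.le, h1.2.le⟩
  set V : ℝ := (volume (tsupport φ)).toReal with hV
  have hV0 : 0 ≤ V := ENNReal.toReal_nonneg
  set D : ℝ := (L + 1) * (4 / r ^ 2 + (c₂ - c₁) ^ 2 / r * C) with hD
  have hD0 : 0 ≤ D := by positivity
  set E : ℝ := 2 * Real.exp 1 * n * Mφ with hE
  have hE0 : 0 ≤ E := by positivity
  set G : ℝ := 1 + E * C * (m₂ - m₁) + 6 * (E * (V + D)) with hG
  have hG0 : 0 < G := by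
    have h1 : 0 ≤ m₂ - m₁ := by linarith
    positivity
  have main : ∀ ε : ℝ, 0 < ε → ε ≤ 1 → ‖Bp 1 (Φ 0) φ‖ ≤ ε * G := by
    intro ε hε hε1
    obtain ⟨N1, hN1⟩ := T1_lim h hn hφ hφc hε
    obtain ⟨N2, hN2⟩ : ∃ N2 : ℕ, ∀ k : ℕ, N2 ≤ k → (r + 3) / 2 ^ k ≤ μ := by
      obtain ⟨N2, hN2⟩ := pow_unbounded_of_one_lt ((r + 3) / μ) (one_lt_two (α := ℝ))
      refine ⟨N2, fun k hk => ?_⟩
      rw [div_le_iff₀ (by positivity)]
      rw [div_lt_iff₀ hμ0] at hN2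
      have h1 : (2 : ℝ) ^ N2 ≤ 2 ^ k := pow_le_pow_right₀ one_le_two hk
      nlinarith
    obtain ⟨k, hkN, hk⟩ := sums hKc hne (ε := ε ^ 2) (by positivity) (max N1 N2)
    have hkN1 : N1 ≤ k := (le_max_left _ _).trans hkN
    have hkN2 : N2 ≤ k := (le_max_right _ _).trans hkN
    have hX : (0 : ℝ) < 2 ^ k := by positivity
    obtain ⟨ψ, p1, p2, p3, p4, p5, p6, p7, p8⟩ := hcut K hKc hne (2 ^ k) hX
    have hκ : 0 ≤ L + k := by positivity
    obtain ⟨q1, q2, q3⟩ := energy_k h hS hP hKc hne (fun t ht => ht.1) hμ hκ (hN2 k hkN2)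
      (hb k) p1 p2 p3 p5 p7 (fun t ht => (p8 t ht).2)
    have hee := ee_nonneg K (2 ^ k)
    have hbs := bs_nonneg K hX
    have hk0 : (0 : ℝ) ≤ k := by positivity
    have hsum : ee K (2 ^ k) + bs K (2 ^ k) ≤ ε ^ 2 := by
      refine le_trans ?_ hk
      nlinarith [add_nonneg hee hbs]
    have hee2 : ee K (2 ^ k) ≤ ε := by nlinarith
    -- energy
    have hen : ∫ z in (univ : Set ℝ) ×ˢ Icc m₁ m₂, En (2 ^ k) n (Φ k) z * ψ z.1 ≤ D * ε ^ 2 := by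
      refine q3.trans ?_
      have h1 : L + k ≤ (L + 1) * ((k : ℝ) + 1) := by nlinarith
      have h2 : 4 / r ^ 2 * bs K (2 ^ k) + (c₂ - c₁) ^ 2 / r * C * ee K (2 ^ k) ≤
          (4 / r ^ 2 + (c₂ - c₁) ^ 2 / r * C) * (ee K (2 ^ k) + bs K (2 ^ k)) := by
        have e1 : 0 ≤ 4 / r ^ 2 := by positivity
        have e2 : 0 ≤ (c₂ - c₁) ^ 2 / r * C := by positivity
        nlinarith [mul_nonneg e1 hee, mul_nonneg e2 hbs]
      have h3 : 0 ≤ 4 / r ^ 2 * bs K (2 ^ k) + (c₂ - c₁) ^ 2 / r * C * ee K (2 ^ k) := by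
        positivity
      calc (L + k) * (4 / r ^ 2 * bs K (2 ^ k) + (c₂ - c₁) ^ 2 / r * C * ee K (2 ^ k))
          ≤ ((L + 1) * ((k : ℝ) + 1)) *
            ((4 / r ^ 2 + (c₂ - c₁) ^ 2 / r * C) * (ee K (2 ^ k) + bs K (2 ^ k))) :=
            mul_le_mul h1 h2 h3 (by positivity)
        _ = D * (((k : ℝ) + 1) * (ee K (2 ^ k) + bs K (2 ^ k))) := by rw [hD]; ring
        _ ≤ D * ε ^ 2 := mul_le_mul_of_nonneg_left hk hD0
    have hol1 : ∀ z ∈ tsupport φ, n < ‖Φ k z‖ → Hol (2 ^ k) (Φ k) z := by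
      intro z hz h3
      have h1 := (hφs hz).1
      have h2 := (hφs hz).2
      refine hS z (fun hzS => ?_) k
      refine absurd (hP.onS k z h1 ⟨?_, ?_⟩ hzS) (not_le.2 h3)
      · linarith [h2.1, hP.h1]
      · linarith [h2.2, hP.h2]
    have hol2 : ∀ z ∈ tsupport φ, 1 ≤ 2 ^ k * Metric.infDist z.1 K → Hol (2 ^ k) (Φ k) z := by
      intro z hz h3
      refine hS z (fun hzS => ?_) k
      have h4 := Metric.infDist_zero_of_mem (hSK z hz hzS)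
      rw [h4, mul_zero] at h3
      linarith
    have hol3 : ∀ z : ℝ × ℝ, z.1 ∈ Ioo a b → z.2 ∈ Icc m₁ m₂ → n < ‖Φ k z‖ →
        Hol (2 ^ k) (Φ k) z := by
      intro z h1 h2 h3
      refine hS z (fun hzS => ?_) k
      refine absurd (hP.onS k z h1 ⟨?_, ?_⟩ hzS) (not_le.2 h3)
      · linarith [h2.1, hP.h1]
      · linarith [h2.2, hP.h2]
    have hψ1 : ContDiff ℝ 1 ψ := p1.of_le (by simp)
    rw [← h.pair k φ hφ hφc, reduce (h.cont k) hX hn hφ hφc hψ1 p4 hol2 hol1]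
    refine (prod_bound (h.cont k) hX hn hφ hφc hψ1 p2 hol1).trans ?_
    have t1 := hN1 k hkN1 ψ p1.continuous p2 p3
    have t2 := T2_bound (h.cont k) hX hn hφ.continuous hMφ' hm.le hφ2 hKc hne hψ1 hC.le p6
      (fun t ht => (p8 t ht).1)
    have t3 := T3_bound (h.cont k) hX hn hφ.continuous hφc hMφ' hφ2 hol3 p1.continuous p2 p3
      q1 q2 hε
    have t2' : 2 * Real.exp 1 * n * Mφ * C * (m₂ - m₁) * ee K (2 ^ k) ≤
        E * C * (m₂ - m₁) * ε := by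
      refine mul_le_mul_of_nonneg_left hee2 ?_
      have : 0 ≤ m₂ - m₁ := by linarith
      positivity
    have t3' : 2 * Real.exp 1 * n * Mφ * (ε * (volume (tsupport φ)).toReal +
        ε⁻¹ * ∫ z in (univ : Set ℝ) ×ˢ Icc m₁ m₂, En (2 ^ k) n (Φ k) z * ψ z.1) ≤
        E * (ε * (V + D)) := by
      refine mul_le_mul_of_nonneg_left ?_ hE0
      have e1 : ε⁻¹ * ∫ z in (univ : Set ℝ) ×ˢ Icc m₁ m₂, En (2 ^ k) n (Φ k) z * ψ z.1 ≤
          ε⁻¹ * (D * ε ^ 2) := mul_le_mul_of_nonneg_left hen (by positivity)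
      have e2 : ε⁻¹ * (D * ε ^ 2) = D * ε := by
        field_simp
      rw [e2] at e1
      linarith
    have t3'' := t3.trans t3'
    have t2'' := t2.trans t2'
    rw [hG]
    linarith
  by_contra hne0
  have h1 : 0 < ‖Bp 1 (Φ 0) φ‖ := norm_pos_iff.2 hne0
  set ε : ℝ := min 1 (‖Bp 1 (Φ 0) φ‖ / (2 * G)) with hε
  have hε0 : 0 < ε := lt_min one_pos (by positivity)
  have h2 := main ε hε0 (min_le_left _ _)
  have h3 : ε ≤ ‖Bp 1 (Φ 0) φ‖ / (2 * G) := min_le_right _ _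
  rw [le_div_iff₀ (by positivity)] at h3
  nlinarith

/-- the abstract theorem -/
theorem Fam.zero {Φ : ℕ → ℝ × ℝ → ℂ} (h : Fam Φ) {φ : ℝ × ℝ → ℝ} (hφ : ContDiff ℝ 1 φ)
    (hφc : HasCompactSupport φ) : Bp 1 (Φ 0) φ = 0 := by
  set S : Set (ℝ × ℝ) := {z | ¬ Reg Φ z} with hSdef
  have hS : ∀ z, z ∉ S → ∀ k, Hol (2 ^ k) (Φ k) z := by
    intro z hz k
    exact Reg.hol h (not_not.1 hz) k
  have hSc : IsClosed S := (reg_open Φ).isClosed_compl
  have hemp : ¬ S.Nonempty := by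
    intro hne
    have hbd : ∀ z, ∃ C : ℝ, ∀ k, ‖Φ k z‖ ≤ C := by
      intro z
      obtain ⟨C, hC⟩ := (h.lim z).norm.bddAbove_range
      exact ⟨C, fun k => hC ⟨k, rfl⟩⟩
    obtain ⟨a, b, c₁, c₂, m₁, m₂, r, n, hP⟩ := portion h.cont hbd hSc hne
    obtain ⟨z, hz1, hz2, hzS⟩ := hP.meets
    refine hzS ⟨Ioo a b ×ˢ Ioo m₁ m₂, isOpen_Ioo.prod isOpen_Ioo, ⟨hz1, hz2⟩, ?_⟩
    intro φ h1 h2 h3
    exact core h hS hP (h1.of_le (by simp)) h2 h3
  refine bp_zero one_pos hφ hφc fun z _ => ?_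
  have := hS z (fun hz => hemp ⟨z, hz⟩) 0
  rwa [pow_zero] at this

end Pool.Agent.Helper12.RD
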