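import Mathlib

/-! PROJECT RD (Radon transform, MP_9de3af_an): common definitions.
The space of lines has coordinates `z = (t, p)`, the line being `{(p - t s, s)}`. -/

set_option autoImplicit false

open MeasureTheory Real Filter Topology Set
open scoped ContDiff

noncomputable section

namespace Pool.Agent.Helper12.RD

/-- derivative in the first variable `t` -/
def dt (φ : ℝ × ℝ → ℝ) (z : ℝ × ℝ) : ℝ := fderiv ℝ φ z (1, 0)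

/-- derivative in the second variable `p` -/
def dp (φ : ℝ × ℝ → ℝ) (z : ℝ × ℝ) : ℝ := fderiv ℝ φ z (0, 1)

/-- the operator `-X⁻¹ ∂_t + i ∂_p` -/
def Dop (X : ℝ) (φ : ℝ × ℝ → ℝ) (z : ℝ × ℝ) : ℂ :=
  ((-(X⁻¹ * dt φ z) : ℝ) : ℂ) + ((dp φ z : ℝ) : ℂ) * Complex.I

/-- pairing of `Φ` with `Dop X φ` -/
def Bp (X : ℝ) (Φ : ℝ × ℝ → ℂ) (φ : ℝ × ℝ → ℝ) : ℂ := ∫ z : ℝ × ℝ, Φ z * Dop X φ z

/-- the complex coordinate `w = p + i X t` of the point `z = (t, p)` -/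
def wz (X : ℝ) (z : ℝ × ℝ) : ℂ := ⟨z.2, X * z.1⟩

/-- the function `Φ` in the complex coordinate -/
def toF (X : ℝ) (Φ : ℝ × ℝ → ℂ) (w : ℂ) : ℂ := Φ (w.im / X, w.re)

/-- `Φ` is a holomorphic function of `p + i X t` near `z` -/
def Hol (X : ℝ) (Φ : ℝ × ℝ → ℂ) (z : ℝ × ℝ) : Prop := AnalyticAt ℂ (toF X Φ) (wz X z)

/-- the bump `s (1 - s)` on `[0, 1]` -/
def bb (s : ℝ) : ℝ := max 0 (s * (1 - s))

/-- first primitive of the bump -/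
def La1 (x : ℝ) : ℝ := ∫ s in (0 : ℝ)..x, bb s

/-- second primitive of the bump -/
def La (x : ℝ) : ℝ := ∫ s in (0 : ℝ)..x, La1 s

/-- `log (|Φ| / 2 n)` -/
def lam (n : ℝ) (Φ : ℝ × ℝ → ℂ) (z : ℝ × ℝ) : ℝ := Real.log (‖Φ z‖ / (2 * n))

/-- the cutoff in the values of `Φ`: one for `‖Φ‖ ≤ 2 n`, zero for `‖Φ‖ ≥ 2 e n` -/
def chi (n : ℝ) (Φ : ℝ × ℝ → ℂ) (z : ℝ × ℝ) : ℝ := 1 - 6 * La1 (lam n Φ z)

/-- logarithmic derivative of `Φ` in the complex coordinate -/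
def qq (X : ℝ) (Φ : ℝ × ℝ → ℂ) (z : ℝ × ℝ) : ℂ := logDeriv (toF X Φ) (wz X z)

/-- its derivative -/
def q1 (X : ℝ) (Φ : ℝ × ℝ → ℂ) (z : ℝ × ℝ) : ℂ := deriv (logDeriv (toF X Φ)) (wz X z)

/-- energy density -/
def En (X n : ℝ) (Φ : ℝ × ℝ → ℂ) (z : ℝ × ℝ) : ℝ := bb (lam n Φ z) * ‖qq X Φ z‖ ^ 2

/-- a compatible family: continuous functions `Φ k` with the same pairing at the scales `2 ^ k`,
tending to zero pointwise, of size `O(2 ^ k)` locally -/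
structure Fam (Φ : ℕ → ℝ × ℝ → ℂ) : Prop where
  cont : ∀ k, Continuous (Φ k)
  lim : ∀ z, Tendsto (fun k => Φ k z) atTop (𝓝 0)
  bd : ∀ R : ℝ, ∃ C : ℝ, ∀ k, ∀ z : ℝ × ℝ, ‖z‖ ≤ R → ‖Φ k z‖ ≤ C * 2 ^ k
  pair : ∀ k, ∀ φ : ℝ × ℝ → ℝ, ContDiff ℝ 1 φ → HasCompactSupport φ →
    Bp (2 ^ k) (Φ k) φ = Bp 1 (Φ 0) φ

/-- the outcome of the category argument: a box `(a, b) × [c₁ - r, c₂ + r]` where all `Φ k` are
bounded by `n` on `S`, a middle part `(a, b) × (m₁, m₂)` meeting `S`, and two layers around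
`p = c₁`, `p = c₂` where the bound holds above the closure of the projection of the middle part
of `S` -/
structure Port (Φ : ℕ → ℝ × ℝ → ℂ) (S : Set (ℝ × ℝ)) (a b c₁ c₂ m₁ m₂ r n : ℝ) : Prop where
  hab : a < b
  hm : m₁ < m₂
  hr : 0 < r
  hn : 1 ≤ n
  h1 : c₁ + r ≤ m₁
  h2 : m₂ + r ≤ c₂
  onS : ∀ k, ∀ z : ℝ × ℝ, z.1 ∈ Ioo a b → z.2 ∈ Icc (c₁ - r) (c₂ + r) → z ∈ S → ‖Φ k z‖ ≤ n
  meets : ∃ z : ℝ × ℝ, z.1 ∈ Ioo a b ∧ z.2 ∈ Ioo m₁ m₂ ∧ z ∈ S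
  layer : ∀ k, ∀ z : ℝ × ℝ, z.1 ∈ Ioo a b →
    z.1 ∈ closure {t : ℝ | t ∈ Ioo a b ∧ ∃ p ∈ Ioo m₁ m₂, (t, p) ∈ S} →
    (z.2 ∈ Icc (c₁ - r) (c₁ + r) ∨ z.2 ∈ Icc (c₂ - r) (c₂ + r)) → ‖Φ k z‖ ≤ n

/-- measure of the set at distance about `1 / X` of `K` -/
def ee (K : Set ℝ) (X : ℝ) : ℝ :=
  (volume {t : ℝ | 1 ≤ X * Metric.infDist t K ∧ X * Metric.infDist t K ≤ 3}).toReal

/-- integral of the rescaled distance to `K` near `K` -/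
def bs (K : Set ℝ) (X : ℝ) : ℝ :=
  ∫ t in {t : ℝ | X * Metric.infDist t K ≤ 3}, X * Metric.infDist t K

/-- the functions attached to `f` -/
def Ph (f : ℝ × ℝ → ℝ) (X : ℝ) (z : ℝ × ℝ) : ℂ :=
  ∫ s : ℝ, ((f (z.2 - z.1 * s, s) : ℝ) : ℂ) * ((X : ℂ) / ((s : ℂ) + X * Complex.I))

/-- the derivative in `p` of the Radon transform of `f` as a distribution -/
def Afun (f : ℝ × ℝ → ℝ) (φ : ℝ × ℝ → ℝ) : ℝ :=
  ∫ s : ℝ, ∫ z : ℝ × ℝ, f (z.2 - z.1 * s, s) * dp φ z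

/-- hypotheses on `f` in slope form: continuous, integrable on the non-horizontal lines with
integral zero, tails of the weighted integrals locally uniformly small -/
structure HypS (f : ℝ × ℝ → ℝ) : Prop where
  cont : Continuous f
  line : ∀ t p : ℝ, Integrable (fun s : ℝ => f (p - t * s, s))
  zero : ∀ t p : ℝ, ∫ s : ℝ, f (p - t * s, s) = 0
  tail : ∀ R : ℝ, ∀ ε > 0, ∃ Y : ℝ, 0 < Y ∧ ∀ t p : ℝ, |t| ≤ R → |p| ≤ R →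
    ∫ s in {s : ℝ | Y < |s|}, |f (p - t * s, s)| / |s| ≤ ε

end Pool.Agent.Helper12.RD
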