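import Pool.Agent.Helper12.RD.Defs

/-! Definitions for the version with conditionally convergent integrals. -/

set_option autoImplicit false

open MeasureTheory Real Filter Topology Set
open scoped ContDiff

noncomputable section

namespace Pool.Agent.Helper12.RD

/-- the kernel `X / (s + X i)` -/
def kX (X s : ℝ) : ℂ := (X : ℂ) / ((s : ℂ) + X * Complex.I)

/-- the truncation of `Ph f X` -/
def PhY (f : ℝ × ℝ → ℝ) (X Y : ℝ) (z : ℝ × ℝ) : ℂ :=
  ∫ s in (-Y)..Y, ((f (z.2 - z.1 * s, s) : ℝ) : ℂ) * kX X s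

/-- hypotheses on `f` in slope form: continuous, integrable on the non-horizontal lines with
integral zero, and the integrals of `f / s` over the two ends of the lines converge locally
uniformly -/
structure HypU (f : ℝ × ℝ → ℝ) : Prop where
  cont : Continuous f
  line : ∀ t p : ℝ, Integrable (fun s : ℝ => f (p - t * s, s))
  zero : ∀ t p : ℝ, ∫ s : ℝ, f (p - t * s, s) = 0
  tail : ∀ R : ℝ, ∀ ε > 0, ∃ Y₀ : ℝ, 0 < Y₀ ∧ ∀ t p : ℝ, |t| ≤ R → |p| ≤ R →
    ∀ Y Y' : ℝ, Y₀ ≤ Y → Y ≤ Y' →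
      |∫ s in Y..Y', f (p - t * s, s) / s| ≤ ε ∧ |∫ s in (-Y')..(-Y), f (p - t * s, s) / s| ≤ ε

end Pool.Agent.Helper12.RD
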