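import Pool.Agent.Helper12.RD.MainU
import Pool.Agent.Helper12.RD.St.V1
import Pool.Agent.Helper12.RD.St.V2

set_option autoImplicit false

open MeasureTheory Real Filter Topology Set

noncomputable section

namespace Pool.Agent.Helper12.RD

/-- the theorem with the growth condition in sup norm -/
theorem angle_mainU' {f : ℝ × ℝ → ℝ} (hf : Continuous f) {C0 : ℝ} {k : ℕ}
    (hb : ∀ y, |f y| ≤ C0 * (1 + ‖y‖) ^ k)
    (hl : ∀ θ p : ℝ, Integrable (fun t : ℝ => f (pt θ p t)))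
    (hz : ∀ θ p : ℝ, ∫ t : ℝ, f (pt θ p t) = 0)
    (hU : ∀ R ε : ℝ, 0 < ε → ∃ Y₀ : ℝ, 0 < Y₀ ∧ ∀ θ p : ℝ, |p| ≤ R →
      ∀ Y Y' : ℝ, Y₀ ≤ Y → Y ≤ Y' → |∫ t in Y..Y', f (pt θ p t) / t| ≤ ε) :
    f = 0 := by
  refine (hypU_slope hf hl hz hU).main hb fun s => ?_
  have h1 := (hl (π / 2) s).comp_neg
  refine h1.congr (Eventually.of_forall fun x => ?_)
  simp [pt]

/-- the theorem for finite combinations of translates in one direction -/
theorem angle_final {f : ℝ × ℝ → ℝ} (hf : Continuous f) {C0 : ℝ} {k : ℕ}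
    (hb : ∀ y, |f y| ≤ C0 * (1 + ‖y‖) ^ k)
    (hl : ∀ θ p : ℝ, Integrable (fun t : ℝ => f (pt θ p t)))
    (hz : ∀ θ p : ℝ, ∫ t : ℝ, f (pt θ p t) = 0)
    {e : ℝ × ℝ} (he : e ≠ 0) (s : Finset ℝ) (c : ℝ → ℝ) (hc : ∃ r ∈ s, c r ≠ 0)
    (hU : ∀ R ε : ℝ, 0 < ε → ∃ Y₀ : ℝ, 0 < Y₀ ∧ ∀ θ p : ℝ, |p| ≤ R →
      ∀ Y Y' : ℝ, Y₀ ≤ Y → Y ≤ Y' →
        |∫ t in Y..Y', (∑ r ∈ s, c r * f (pt θ p t + r • e)) / t| ≤ ε) :
    f = 0 := by
  set g : ℝ × ℝ → ℝ := fun x => ∑ r ∈ s, c r * f (x + r • e) with hg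
  have hgc : Continuous g := by
    refine continuous_finset_sum _ fun r _ => ?_
    exact continuous_const.mul (hf.comp (continuous_id.add continuous_const))
  have hgb : ∀ y, |g y| ≤ (∑ r ∈ s, |c r| * (C0 * (1 + ‖r • e‖) ^ k)) * (1 + ‖y‖) ^ k := by
    intro y
    rw [Finset.sum_mul]
    refine (Finset.abs_sum_le_sum_abs _ _).trans (Finset.sum_le_sum fun r _ => ?_)
    rw [abs_mul, mul_assoc]
    exact mul_le_mul_of_nonneg_left (growth_add hb (r • e) y) (abs_nonneg _)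
  have hgl : ∀ θ p : ℝ, Integrable (fun t : ℝ => g (pt θ p t)) := by
    intro θ p
    exact integrable_finset_sum _ fun r _ => (pt_int hl (r • e) θ p).const_mul _
  have hgz : ∀ θ p : ℝ, ∫ t : ℝ, g (pt θ p t) = 0 := by
    intro θ p
    simp only [hg]
    rw [integral_finset_sum _ fun r _ => (pt_int hl (r • e) θ p).const_mul _]
    refine Finset.sum_eq_zero fun r _ => ?_
    rw [integral_const_mul, pt_zero hz, mul_zero]
  have hg0 : g = 0 := angle_mainU' hgc hgb hgl hgz hU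
  funext x
  have h1 := shift_zero (u := fun r : ℝ => f (x + r • e))
    (hf.comp (continuous_const.add (continuous_id.smul continuous_const))) (line_int hl he x)
    s c hc (fun y => ?_) 0
  · simpa using h1
  · have h2 : g (x + y • e) = 0 := by rw [hg0]; rfl
    simp only [hg] at h2
    rw [← h2]
    refine Finset.sum_congr rfl fun r _ => ?_
    rw [add_smul, add_assoc]

end Pool.Agent.Helper12.RD
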