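import Pool.Agent.Helper12.RD.MainU
import Pool.Agent.Helper12.RD.St.P4
import Pool.Agent.Helper12.RD.St.F2
import Pool.Agent.Helper12.RD.St.D2
import Pool.Agent.Helper12.RD.St.D3
import Pool.Agent.Helper12.RD.St.M0

set_option autoImplicit false

open MeasureTheory Real Filter Topology Set
open scoped ContDiff FourierTransform
open Pool.Agent.Helper34.Radon

noncomputable section

namespace Pool.Agent.Helper12.RD

theorem HypS.fam {f : ℝ × ℝ → ℝ} (h : HypS f) : Fam (fun k => Ph f (2 ^ k)) := by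
  refine ⟨fun k => Ph_cont h (one_le_two_pow' k), fun z => Ph_lim h z, fun R => ?_, ?_⟩
  · obtain ⟨C, hC⟩ := Ph_bd h R
    exact ⟨C, fun k z hz => hC (2 ^ k) (one_le_two_pow' k) z hz⟩
  · intro k φ h1 h2
    simp only [pow_zero]
    rw [Bp_Ph h (one_le_two_pow' k) h1 h2, Bp_Ph h le_rfl h1 h2]

theorem HypS.A_zero {f : ℝ × ℝ → ℝ} (h : HypS f) {φ : ℝ × ℝ → ℝ} (hφ : ContDiff ℝ 1 φ)
    (hc : HasCompactSupport φ) : Afun f φ = 0 := by
  have h1 := h.fam.zero hφ hc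
  simp only [pow_zero] at h1
  rw [Bp_Ph h le_rfl hφ hc] at h1
  exact_mod_cast h1

theorem HypS.axis {f : ℝ × ℝ → ℝ} (h : HypS f) {C0 : ℝ} {k : ℕ}
    (hb : ∀ y, |f y| ≤ C0 * (1 + ‖y‖) ^ k) (hi : Integrable (fun x : ℝ => f (x, 0)))
    (x : ℝ) : f (x, 0) = 0 := by
  have hc : Continuous (fun z => ((f z : ℝ) : ℂ)) := Complex.continuous_ofReal.comp h.cont
  have haxis : ∀ κ : ℝ → ℂ, Dens κ → ∫ x : ℝ, ((f (x, 0) : ℝ) : ℂ) * 𝓕 κ x = 0 := by
    intro κ hκ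
    refine axis_zero (F := fun z => ((f z : ℝ) : ℂ)) (C0 := C0) (k := k) hc ?_ ?_ hκ
    · intro y
      rw [Complex.norm_real, Real.norm_eq_abs]
      exact hb y
    · intro R m κ hm hκ
      exact T_zero h.cont hb (fun φ h1 h2 => h.A_zero (h1.of_le (by simp)) h2) hm hκ
  have h1 := zero_of_freq (F := fun x : ℝ => ((f (x, 0) : ℝ) : ℂ))
    (hc.comp (by fun_prop : Continuous fun x : ℝ => (x, (0 : ℝ)))) hi.ofReal
    (fun x => Complex.conj_ofReal _) haxis x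
  exact_mod_cast h1

/-- the theorem in slope form -/
theorem HypS.main {f : ℝ × ℝ → ℝ} (h : HypS f) {C0 : ℝ} {k : ℕ}
    (hb : ∀ y, |f y| ≤ C0 * (1 + ‖y‖) ^ k) (hor : ∀ s : ℝ, Integrable (fun x : ℝ => f (x, s))) :
    f = 0 := by
  funext z
  obtain ⟨x, s⟩ := z
  have h1 := h.translate s
  have hC0 : 0 ≤ C0 := by
    have := (abs_nonneg _).trans (hb 0)
    simpa using this
  have hb1 : ∀ y : ℝ × ℝ, |f (y.1, y.2 + s)| ≤ C0 * (1 + |s|) ^ k * (1 + ‖y‖) ^ k := by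
    intro y
    refine (hb _).trans ?_
    have h2 : 1 + ‖((y.1, y.2 + s) : ℝ × ℝ)‖ ≤ (1 + |s|) * (1 + ‖y‖) := by
      have h3 : ‖((y.1, y.2 + s) : ℝ × ℝ)‖ ≤ ‖y‖ + |s| := by
        rw [Prod.norm_def, Real.norm_eq_abs, Real.norm_eq_abs]
        have e1 : |y.1| ≤ ‖y‖ := by rw [← Real.norm_eq_abs]; exact norm_fst_le y
        have e2 : |y.2| ≤ ‖y‖ := by rw [← Real.norm_eq_abs]; exact norm_snd_le y
        have e3 := abs_add_le y.2 s
        have e4 := abs_nonneg s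
        exact max_le (by linarith) (by linarith)
      have := mul_nonneg (abs_nonneg s) (norm_nonneg y)
      nlinarith
    calc C0 * (1 + ‖((y.1, y.2 + s) : ℝ × ℝ)‖) ^ k ≤ C0 * ((1 + |s|) * (1 + ‖y‖)) ^ k := by
          gcongr
      _ = _ := by rw [mul_pow]; ring
  have h2 := h1.axis hb1 (by simpa using hor s) x
  simpa using h2

/-- the theorem for continuous weighted line integrals -/
theorem angle_main {f : ℝ × ℝ → ℝ} (hf : Continuous f)
    (hg : ∃ c : ℝ, ∃ m : ℕ, 0 < c ∧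
      ∀ x y : ℝ, |f (x, y)| ≤ c * (1 + (Real.sqrt (x ^ 2 + y ^ 2)) ^ m))
    (hl : ∀ θ p : ℝ, Integrable
      (fun t : ℝ => f (p * cos θ - t * sin θ, p * sin θ + t * cos θ)))
    (hz : ∀ θ p : ℝ, ∫ t : ℝ, f (p * cos θ - t * sin θ, p * sin θ + t * cos θ) = 0)
    (hW : Continuous (fun q : ℝ × ℝ => ∫ t : ℝ,
      |f (q.2 * cos q.1 - t * sin q.1, q.2 * sin q.1 + t * cos q.1)| /
        (1 + Real.sqrt (q.2 ^ 2 + t ^ 2)))) : f = 0 := by
  obtain ⟨C0, k, hb⟩ := growth hg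
  refine (hyp_slope hf hl hz hW).main hb fun s => ?_
  have h1 := (hl (π / 2) s).comp_neg
  refine h1.congr (Eventually.of_forall fun x => ?_)
  simp

/-- the theorem for decaying functions -/
theorem angle_decay {f : ℝ × ℝ → ℝ} (hf : Continuous f)
    (hg : ∃ ε : ℝ → ℝ, AntitoneOn ε (Ici 0) ∧ IntegrableOn (fun r : ℝ => ε r / (1 + r)) (Ici 0) ∧
      ∀ x y : ℝ, |f (x, y)| ≤ ε (Real.sqrt (x ^ 2 + y ^ 2)))
    (hl : ∀ θ p : ℝ, Integrable
      (fun t : ℝ => f (p * cos θ - t * sin θ, p * sin θ + t * cos θ)))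
    (hz : ∀ θ p : ℝ, ∫ t : ℝ, f (p * cos θ - t * sin θ, p * sin θ + t * cos θ) = 0) :
    f = 0 := by
  obtain ⟨ε, h1, h2, h3⟩ := hg
  refine angle_main hf ⟨|ε 0| + 1, 0, by positivity, fun x y => ?_⟩ hl hz
    (decay_W hf h1 h2 h3)
  have h4 := h1 (mem_Ici.2 le_rfl) (mem_Ici.2 (Real.sqrt_nonneg (x ^ 2 + y ^ 2)))
    (Real.sqrt_nonneg (x ^ 2 + y ^ 2))
  rw [pow_zero]
  have h5 := le_abs_self (ε 0)
  have h6 := h3 x y
  have h7 := abs_nonneg (ε 0)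
  linarith

end Pool.Agent.Helper12.RD
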