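import Pool.Agent.Helper12.RD.Core
import Pool.Agent.Helper12.RD.St.F2
import Pool.Agent.Helper12.RD.St.U3
import Pool.Agent.Helper12.RD.St.U4
import Pool.Agent.Helper12.RD.St.U5

set_option autoImplicit false

open MeasureTheory Real Filter Topology Set
open scoped ContDiff FourierTransform
open Pool.Agent.Helper34.Radon

noncomputable section

namespace Pool.Agent.Helper12.RD

theorem one_le_two_pow' (k : ℕ) : (1 : ℝ) ≤ 2 ^ k := one_le_pow₀ one_le_two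

theorem HypU.fam {f : ℝ × ℝ → ℝ} (h : HypU f) : Fam (fun k => Ph f (2 ^ k)) := by
  refine ⟨fun k => Ph_cont' h (by positivity), fun z => Ph_lim' h z, fun R => ?_, ?_⟩
  · obtain ⟨C, hC⟩ := Ph_bd' h R
    exact ⟨C, fun k z hz => hC (2 ^ k) (one_le_two_pow' k) z hz⟩
  · intro k φ h1 h2
    simp only [pow_zero]
    exact tendsto_nhds_unique (Bp_lim h (by positivity) h1 h2) (Bp_lim h one_pos h1 h2)

theorem HypU.A_zero {f : ℝ × ℝ → ℝ} (h : HypU f) {φ : ℝ × ℝ → ℝ} (hφ : ContDiff ℝ 1 φ)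
    (hc : HasCompactSupport φ) : Afun f φ = 0 := by
  have h1 := h.fam.zero hφ hc
  simp only [pow_zero] at h1
  have h2 := Bp_lim h one_pos hφ hc
  rw [h1] at h2
  have h3 : Tendsto (fun Y : ℝ => ∫ s in (-Y)..Y, ∫ z : ℝ × ℝ, f (z.2 - z.1 * s, s) * dp φ z)
      atTop (𝓝 0) := by
    have h4 := (Complex.continuous_re.tendsto (0 : ℂ)).comp h2
    simpa [Function.comp_def] using h4
  unfold Afun
  by_cases hi : Integrable (fun s : ℝ => ∫ z : ℝ × ℝ, f (z.2 - z.1 * s, s) * dp φ z)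
  · exact tendsto_nhds_unique
      (intervalIntegral_tendsto_integral hi tendsto_neg_atTop_atBot tendsto_id) h3
  · exact integral_undef hi

theorem HypU.axis {f : ℝ × ℝ → ℝ} (h : HypU f) {C0 : ℝ} {k : ℕ}
    (hb : ∀ y, |f y| ≤ C0 * (1 + ‖y‖) ^ k) (hi : Integrable (fun x : ℝ => f (x, 0)))
    (x : ℝ) : f (x, 0) = 0 := by
  have hc : Continuous (fun z => ((f z : ℝ) : ℂ)) := Complex.continuous_ofReal.comp h.cont
  have haxis : ∀ κ : ℝ → ℂ, Dens κ → ∫ x : ℝ, ((f (x, 0) : ℝ) : ℂ) * 𝓕 κ x = 0 := by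
    intro κ hκ
    refine axis_zero (F := fun z => ((f z : ℝ) : ℂ)) (C0 := C0) (k := k) hc ?_ ?_ hκ
    · intro y
      rw [Complex.norm_real, Real.norm_eq_abs]
      exact hb y
    · intro R m κ hm hκ
      exact T_zero h.cont hb (fun φ h1 h2 => h.A_zero (h1.of_le (by simp)) h2) hm hκ
  have h1 := zero_of_freq (F := fun x : ℝ => ((f (x, 0) : ℝ) : ℂ))
    (hc.comp (by fun_prop : Continuous fun x : ℝ => (x, (0 : ℝ)))) hi.ofReal
    (fun x => Complex.conj_ofReal _) haxis x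
  exact_mod_cast h1

/-- the theorem in slope form -/
theorem HypU.main {f : ℝ × ℝ → ℝ} (h : HypU f) {C0 : ℝ} {k : ℕ}
    (hb : ∀ y, |f y| ≤ C0 * (1 + ‖y‖) ^ k) (hor : ∀ s : ℝ, Integrable (fun x : ℝ => f (x, s))) :
    f = 0 := by
  funext z
  obtain ⟨x, s⟩ := z
  have h1 := h.translate s
  have hC0 : 0 ≤ C0 := by
    have := (abs_nonneg _).trans (hb 0)
    simpa using this
  have hb1 : ∀ y : ℝ × ℝ, |f (y.1, y.2 + s)| ≤ C0 * (1 + |s|) ^ k * (1 + ‖y‖) ^ k := by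
    intro y
    refine (hb _).trans ?_
    have h2 : 1 + ‖((y.1, y.2 + s) : ℝ × ℝ)‖ ≤ (1 + |s|) * (1 + ‖y‖) := by
      have h3 : ‖((y.1, y.2 + s) : ℝ × ℝ)‖ ≤ ‖y‖ + |s| := by
        rw [Prod.norm_def, Real.norm_eq_abs, Real.norm_eq_abs]
        have e1 : |y.1| ≤ ‖y‖ := by rw [← Real.norm_eq_abs]; exact norm_fst_le y
        have e2 : |y.2| ≤ ‖y‖ := by rw [← Real.norm_eq_abs]; exact norm_snd_le y
        have e3 := abs_add_le y.2 s
        have e4 := abs_nonneg s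
        exact max_le (by linarith) (by linarith)
      have := mul_nonneg (abs_nonneg s) (norm_nonneg y)
      nlinarith
    calc C0 * (1 + ‖((y.1, y.2 + s) : ℝ × ℝ)‖) ^ k ≤ C0 * ((1 + |s|) * (1 + ‖y‖)) ^ k := by
          gcongr
      _ = _ := by rw [mul_pow]; ring
  have h2 := h1.axis hb1 (by simpa using hor s) x
  simpa using h2

/-- growth in the form of the problem -/
theorem growth {f : ℝ × ℝ → ℝ} (h : ∃ c : ℝ, ∃ m : ℕ, 0 < c ∧
      ∀ x y : ℝ, |f (x, y)| ≤ c * (1 + (Real.sqrt (x ^ 2 + y ^ 2)) ^ m)) :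
    ∃ C0 : ℝ, ∃ k : ℕ, ∀ y, |f y| ≤ C0 * (1 + ‖y‖) ^ k := by
  obtain ⟨c, m, hc, hb⟩ := h
  refine ⟨c * (1 + 2 ^ m), m, fun y => ?_⟩
  refine (hb y.1 y.2).trans ?_
  rw [mul_assoc]
  refine mul_le_mul_of_nonneg_left ?_ hc.le
  have e1 : |y.1| ≤ ‖y‖ := by rw [← Real.norm_eq_abs]; exact norm_fst_le y
  have e2 : |y.2| ≤ ‖y‖ := by rw [← Real.norm_eq_abs]; exact norm_snd_le y
  have h0 := norm_nonneg y
  have e3 : Real.sqrt (y.1 ^ 2 + y.2 ^ 2) ≤ 2 * ‖y‖ := by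
    rw [Real.sqrt_le_left (by positivity)]
    have e4 : y.1 ^ 2 ≤ ‖y‖ ^ 2 := by rw [← sq_abs]; gcongr
    have e5 : y.2 ^ 2 ≤ ‖y‖ ^ 2 := by rw [← sq_abs]; gcongr
    nlinarith
  have e6 : (Real.sqrt (y.1 ^ 2 + y.2 ^ 2)) ^ m ≤ 2 ^ m * (1 + ‖y‖) ^ m := by
    rw [← mul_pow]
    refine pow_le_pow_left₀ (Real.sqrt_nonneg _) (e3.trans ?_) m
    linarith
  have e7 : (1 : ℝ) ≤ (1 + ‖y‖) ^ m := one_le_pow₀ (by linarith)
  nlinarith

/-- the theorem for locally uniformly convergent integrals of `f / |x|` -/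
theorem angle_mainU {f : ℝ × ℝ → ℝ} (hf : Continuous f)
    (hg : ∃ c : ℝ, ∃ m : ℕ, 0 < c ∧
      ∀ x y : ℝ, |f (x, y)| ≤ c * (1 + (Real.sqrt (x ^ 2 + y ^ 2)) ^ m))
    (hl : ∀ θ p : ℝ, Integrable
      (fun t : ℝ => f (p * cos θ - t * sin θ, p * sin θ + t * cos θ)))
    (hz : ∀ θ p : ℝ, ∫ t : ℝ, f (p * cos θ - t * sin θ, p * sin θ + t * cos θ) = 0)
    (hU : ∀ R ε : ℝ, 0 < ε → ∃ Y₀ : ℝ, 0 < Y₀ ∧ ∀ θ p : ℝ, |p| ≤ R →
      ∀ Y Y' : ℝ, Y₀ ≤ Y → Y ≤ Y' →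
        |∫ t in Y..Y', f (p * cos θ - t * sin θ, p * sin θ + t * cos θ) / t| ≤ ε) :
    f = 0 := by
  obtain ⟨C0, k, hb⟩ := growth hg
  refine (hypU_slope hf hl hz hU).main hb fun s => ?_
  have h1 := (hl (π / 2) s).comp_neg
  refine h1.congr (Eventually.of_forall fun x => ?_)
  simp

end Pool.Agent.Helper12.RD
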